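import Pool.Agent.N70.PP.Stm

/-!
# Project PP, leaf PARB: parity for degrees congruent to two modulo four (helper234, after the
proof of the case of degrees divisible by four in Y436/AW/Par)
-/

set_option autoImplicit false

namespace Pool.Agent.N234.PP

open Finset

/-- the exponent of the sign -/
lemma odd_card (m : ℕ) : Odd (∑ l : Fin (4 * m + 2), (Ioi l).card) := by
  have h1 : ∑ l : Fin (4 * m + 2), (Ioi l).card = ∑ i ∈ range (4 * m + 2), i := by
    rw [← Finset.sum_range_reflect]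
    rw [← Fin.sum_univ_eq_sum_range (fun i => 4 * m + 2 - 1 - i) (4 * m + 2)]
    refine sum_congr rfl fun l _ => ?_
    rw [Fin.card_Ioi]
  rw [h1]
  have h2 := Finset.sum_range_id_mul_two (4 * m + 2)
  refine ⟨m * (4 * m + 3), ?_⟩
  have h3 : (4 * m + 2) * (4 * m + 2 - 1) = 2 * (2 * (m * (4 * m + 3)) + 1) := by
    have h4 : 4 * m + 2 - 1 = 4 * m + 1 := by omega
    rw [h4]
    ring
  omega

lemma prod_eq {N : Type} [Field N] (m : ℕ) (x : Fin (4 * m + 2) → N) :
    ∏ l, ∏ j ∈ univ.erase l, (x l - x j) = -(Matrix.vandermonde x).det ^ 2 := by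
  have h1 : ∀ l : Fin (4 * m + 2), ∏ j ∈ univ.erase l, (x l - x j) =
      (∏ j ∈ Ioi l, (x l - x j)) * ∏ j ∈ Iio l, (x l - x j) := by
    intro l
    rw [← prod_union]
    · refine prod_congr ?_ fun _ _ => rfl
      ext j
      simp only [mem_erase, mem_univ, and_true, mem_union, mem_Ioi, mem_Iio]
      constructor
      · intro h
        rcases lt_or_gt_of_ne h with h | h
        · exact Or.inr h
        · exact Or.inl h
      · rintro (h | h)
        · exact h.ne'
        · exact h.ne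
    · rw [disjoint_left]
      intro j hj hj'
      rw [mem_Ioi] at hj
      rw [mem_Iio] at hj'
      exact absurd hj hj'.not_gt
  rw [prod_congr rfl fun l _ => h1 l, prod_mul_distrib]
  have h2 : ∏ l : Fin (4 * m + 2), ∏ j ∈ Iio l, (x l - x j) =
      ∏ j : Fin (4 * m + 2), ∏ l ∈ Ioi j, (x l - x j) := by
    apply prod_comm'
    intro a b
    simp
  have h3 : ∏ l : Fin (4 * m + 2), ∏ j ∈ Ioi l, (x l - x j) =
      -∏ l : Fin (4 * m + 2), ∏ j ∈ Ioi l, (x j - x l) := by
    have h4 : ∀ l : Fin (4 * m + 2), ∏ j ∈ Ioi l, (x l - x j) =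
        (-1) ^ (Ioi l).card * ∏ j ∈ Ioi l, (x j - x l) := by
      intro l
      rw [← prod_const, ← prod_mul_distrib]
      refine prod_congr rfl fun j _ => ?_
      ring
    rw [prod_congr rfl fun l _ => h4 l, prod_mul_distrib, prod_pow_eq_pow_sum,
      (odd_card m).neg_one_pow, neg_one_mul]
  rw [h2, h3, Matrix.det_vandermonde, sq]
  ring

theorem t_parB : Pool.Agent.N70.PP.St_parB := by
  intro p N _ n d hp hn h2 x δ z s c w u hx hc _ _ _ hz hrel σ π hσx hσδ hσs hσc hσw
  obtain ⟨m, rfl⟩ : ∃ m, n = 4 * m + 2 := ⟨n / 4, by omega⟩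
  set V := (Matrix.vandermonde x).det with hV
  have hV0 : V ≠ 0 := Matrix.det_vandermonde_ne_zero_iff.2 hx
  have hσV : σ V = ((Equiv.Perm.sign π : ℤ) : N) * V := by
    have h1 : σ V = (σ : N →+* N) V := rfl
    rw [h1, hV, RingHom.map_det, ← Matrix.det_permute]
    congr 1
    ext i j
    simp [Matrix.vandermonde_apply, hσx]
  -- the sign of the action on the square root
  obtain ⟨U, hU⟩ : ∃ U : N, U = (((u : ℤˣ) : ℤ) : N) := ⟨_, rfl⟩
  have hU1 : U = 1 ∨ U = -1 := by
    rcases Int.units_eq_one_or u with h | h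
    · left; rw [hU, h]; simp
    · right; rw [hU, h]; simp
  have hUp : U ^ p = U := by
    rcases hU1 with h | h
    · rw [h, one_pow]
    · rw [h, hp.neg_one_pow]
  have hσw' : σ w = U * w := by rw [hσw, zsmul_eq_mul, hU]
  -- the square root
  obtain ⟨g, hg⟩ : ∃ g : Fin (4 * m + 2) → N,
    g = fun l => (δ l ^ 2) ^ p * ((δ l ^ 2) ^ p) ^ (d - 1) := ⟨_, rfl⟩
  obtain ⟨W, hW⟩ : ∃ W : N, W = (∏ l, g l) * (s ^ (d - 1)) ^ (2 * m + 1) * w ^ p := ⟨_, rfl⟩
  have hσg : σ (∏ l, g l) = ∏ l, g l := by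
    rw [map_prod, ← Equiv.prod_comp π g]
    refine prod_congr rfl fun l _ => ?_
    rw [hg]
    simp only [map_mul, map_pow, hσδ]
  have hσW : σ W = U * W := by
    rw [hW, map_mul, map_mul, map_pow, map_pow, map_pow, hσs, hσw', hσg, mul_pow, hUp]
    ring
  have hsq : (c ^ (2 * m + 1) * V) ^ 2 = W ^ 2 := by
    have h1 : ∏ l : Fin (4 * m + 2), (c * ∏ j ∈ univ.erase l, (x l - x j)) =
        ∏ l : Fin (4 * m + 2), (g l ^ 2 * s ^ (d - 1) * z l ^ p) := by
      refine prod_congr rfl fun l _ => ?_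
      rw [hrel l, hg]
      simp only
      rw [mul_pow s]
      have h3 : (δ l ^ 4) ^ p = ((δ l ^ 2) ^ p) ^ 2 := by
        rw [← pow_mul, ← pow_mul, ← pow_mul]
        congr 1
        ring
      rw [h3]
      ring
    have hz' : ∏ l, z l = -w ^ 2 := by rw [hz, neg_neg]
    rw [prod_mul_distrib, prod_mul_distrib, prod_mul_distrib, prod_const, prod_const, prod_eq,
      prod_pow, prod_pow, hz', card_univ, Fintype.card_fin, hp.neg_pow] at h1
    rw [hW]
    have h4 : c ^ (4 * m + 2) = (c ^ (2 * m + 1)) ^ 2 := by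
      rw [← pow_mul]
      congr 1
      ring
    have h5 : (s ^ (d - 1)) ^ (4 * m + 2) = ((s ^ (d - 1)) ^ (2 * m + 1)) ^ 2 := by
      rw [← pow_mul _ (2 * m + 1)]
      congr 1
      ring
    rw [h4, h5] at h1
    have h6 : (w ^ 2) ^ p = (w ^ p) ^ 2 := by rw [← pow_mul, ← pow_mul, mul_comm]
    rw [h6] at h1
    linear_combination (-1 : N) * h1
  have hfix : σ (c ^ (2 * m + 1) * V) = U * (c ^ (2 * m + 1) * V) := by
    rcases sq_eq_sq_iff_eq_or_eq_neg.1 hsq with h | h
    · rw [h, hσW]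
    · rw [h, map_neg, hσW]
      ring
  rw [map_mul, map_pow, hσc, hσV] at hfix
  have hcV : c ^ (2 * m + 1) * V ≠ 0 := mul_ne_zero (pow_ne_zero _ hc) hV0
  have hfix2 : ((Equiv.Perm.sign π : ℤ) : N) = U := by
    apply mul_right_cancel₀ hcV
    linear_combination hfix
  rw [hU] at hfix2
  rcases Int.units_eq_one_or (Equiv.Perm.sign π) with h | h <;>
    rcases Int.units_eq_one_or u with h' | h' <;> rw [h, h'] at hfix2 ⊢
  · exfalso
    apply h2
    push_cast at hfix2
    linear_combination hfix2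
  · exfalso
    apply h2
    push_cast at hfix2
    linear_combination (-1 : N) * hfix2

end Pool.Agent.N234.PP
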